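import Pool.Agent.Helper2.BI.St

set_option autoImplicit false

/-! Module NB of project BI (MP_49e2dd_nt): numerical estimates. -/

namespace Pool.Agent.Helper12.BI

open Finset Filter
open Pool.Agent.Helper2.BI

private lemma ev_log (A : ℝ) (K : ℕ) (s : ℝ) (hs : 0 < s) :
    ∀ᶠ X : ℕ in atTop, A * Real.log X ^ K ≤ (X : ℝ) ^ s := by
  have h := isLittleO_log_rpow_rpow_atTop (K : ℝ) hs
  have hc : (0 : ℝ) < 1 / (|A| + 1) := by positivity
  have h2 := h.def hc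
  have h3 := (tendsto_natCast_atTop_atTop (R := ℝ)).eventually h2
  filter_upwards [h3, eventually_ge_atTop 1] with X hX hX1
  have hX1' : (1 : ℝ) ≤ X := by exact_mod_cast hX1
  have hL : 0 ≤ Real.log X := Real.log_nonneg hX1'
  have hp : (0 : ℝ) ≤ (X : ℝ) ^ s := Real.rpow_nonneg (by linarith) _
  rw [Real.rpow_natCast, Real.norm_eq_abs, Real.norm_eq_abs, abs_of_nonneg (pow_nonneg hL K),
    abs_of_nonneg hp] at hX
  have hA : 0 ≤ |A| := abs_nonneg A
  calc A * Real.log X ^ K ≤ |A| * Real.log X ^ K :=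
        mul_le_mul_of_nonneg_right (le_abs_self A) (pow_nonneg hL K)
    _ ≤ |A| * (1 / (|A| + 1) * (X : ℝ) ^ s) := mul_le_mul_of_nonneg_left hX hA
    _ = (|A| / (|A| + 1)) * (X : ℝ) ^ s := by ring
    _ ≤ 1 * (X : ℝ) ^ s := by
        apply mul_le_mul_of_nonneg_right _ hp
        rw [div_le_one (by linarith)]
        linarith
    _ = (X : ℝ) ^ s := one_mul _

/-- the exponent inequality of case 1 -/
private lemma expo (ε : ℝ) (hε : 0 < ε) (k : ℕ) :
    √(2 * ε) - 3 * ε ≤ 1 / (2 * (k : ℝ) + 4) + ((k : ℝ) - 1) * ε := by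
  have hk : (0 : ℝ) ≤ k := Nat.cast_nonneg k
  have hs : 0 ≤ √(2 * ε) := Real.sqrt_nonneg _
  have hs2 : √(2 * ε) ^ 2 = 2 * ε := Real.sq_sqrt (by linarith)
  set s := √(2 * ε) with hsd
  have hn : (0 : ℝ) < 2 * (k : ℝ) + 4 := by linarith
  have key : 0 ≤ (s * (2 * (k : ℝ) + 4) - 2) ^ 2 := sq_nonneg _
  have h1 : s ≤ 1 / (2 * (k : ℝ) + 4) + ((k : ℝ) + 2) * ε := by
    rw [← sub_nonneg]
    have : 1 / (2 * (k : ℝ) + 4) + ((k : ℝ) + 2) * ε - s =
        (s * (2 * (k : ℝ) + 4) - 2) ^ 2 / (4 * (2 * (k : ℝ) + 4)) := by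
      have he : ε = s ^ 2 / 2 := by linarith
      rw [he]
      field_simp
      ring
    rw [this]
    positivity
  linarith

/-- the exponent inequality of case 2 -/
private lemma expo2 (ε : ℝ) (hε : 0 < ε) (hε1 : ε ≤ 1 / 100) :
    7 / 4 + ε ≤ 2 * (1 - √(2 * ε) + 7 / 2 * ε) := by
  have h : √(2 * ε) ≤ 1 / 8 + 3 * ε := by
    apply Real.sqrt_le_iff.mpr
    constructor
    · linarith
    · nlinarith
  linarith

theorem hNB : NB := by
  intro ε hε hε1 Ck C hCk hC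
  obtain ⟨K, hK⟩ := exists_nat_ge (2 / ε)
  set D : ℝ := ∑ k ∈ range (K + 1), Ck k with hD
  have hDk : ∀ k ≤ K, Ck k ≤ D := fun k hk =>
    single_le_sum (f := Ck) (fun i _ => (hCk i).le) (mem_range.mpr (by omega))
  have hD0 : 0 < D := lt_of_lt_of_le (hCk 0) (hDk 0 (Nat.zero_le _))
  have e1 := ev_log 4 0 (ε / 2) (by linarith)
  have e2 := ev_log (10 * D * 4 ^ K) K (ε / 2) (by linarith)
  have e3 := ev_log (5 * Ck 0 * C) 1 ε hε
  obtain ⟨X₀, hX₀⟩ := eventually_atTop.mp (e1.and (e2.and (e3.and (eventually_ge_atTop 3))))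
  refine ⟨X₀, fun X hX i j hji hi hj T hT h1 h2 => ?_⟩
  obtain ⟨a1, a2, a3, a4⟩ := hX₀ X hX
  rw [pow_zero, mul_one] at a1
  rw [pow_one] at a3
  have hX3 : (3 : ℝ) ≤ X := by exact_mod_cast a4
  have hX0 : (0 : ℝ) < X := by linarith
  have hX1 : (1 : ℝ) ≤ X := by linarith
  have hL1 : 1 ≤ Real.log X := by
    rw [Real.le_log_iff_exp_le hX0]
    have := Real.exp_one_lt_d9
    linarith
  set L := Real.log X with hLd
  set P : ℝ := 2 ^ i with hP
  set H : ℝ := 2 ^ j with hH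
  have hH1 : 1 ≤ H := one_le_pow₀ (by norm_num)
  have hHP : H ≤ P := pow_le_pow_right₀ (by norm_num) hji
  have hP0 : 0 < P := by linarith
  have hH0 : 0 < H := by linarith
  have h4H : (2 : ℝ) ^ (j + 2) = 4 * H := by rw [pow_add, hH]; ring
  have h2H : (2 : ℝ) ^ (j + 1) = 2 * H := by rw [pow_add, hH]; ring
  rw [h4H] at hj
  -- H > X^(ε/2)
  have hXe : (X : ℝ) ^ ε = (X : ℝ) ^ (ε / 2) * (X : ℝ) ^ (ε / 2) := by
    rw [← Real.rpow_add hX0]; congr 1; ring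
  have hXe2 : (0 : ℝ) < (X : ℝ) ^ (ε / 2) := Real.rpow_pos_of_pos hX0 _
  have hHe : (X : ℝ) ^ ε / 4 ≤ H := by linarith
  have hHe2 : (X : ℝ) ^ (ε / 2) ≤ H := by
    have : 4 * (X : ℝ) ^ (ε / 2) ≤ (X : ℝ) ^ ε := by
      rw [hXe]; exact mul_le_mul_of_nonneg_right a1 hXe2.le
    linarith
  have hPe : (X : ℝ) ^ (ε / 2) ≤ P := hHe2.trans hHP
  -- bound of the exponents k
  have hkK : ∀ k : ℕ, (2 ^ i) ^ (2 * k + 2) ≤ 2 * X → k ≤ K := by
    intro k hk
    have hk' : P ^ (2 * k + 2) ≤ 2 * (X : ℝ) := by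
      have : (((2 ^ i) ^ (2 * k + 2) : ℕ) : ℝ) ≤ ((2 * X : ℕ) : ℝ) := by exact_mod_cast hk
      push_cast at this
      exact this
    have h3 : (X : ℝ) ^ (ε / 2 * ((2 * k + 2 : ℕ) : ℝ)) ≤ (X : ℝ) ^ (2 : ℝ) := by
      rw [Real.rpow_mul hX0.le, Real.rpow_natCast]
      calc ((X : ℝ) ^ (ε / 2)) ^ (2 * k + 2) ≤ P ^ (2 * k + 2) :=
            pow_le_pow_left₀ hXe2.le hPe _
        _ ≤ 2 * (X : ℝ) := hk'
        _ ≤ X * X := by nlinarith
        _ = (X : ℝ) ^ (2 : ℝ) := by rw [Real.rpow_two]; ring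
    have h4 := (Real.rpow_le_rpow_left_iff (by linarith : (1 : ℝ) < X)).mp h3
    push_cast at h4
    have h5 : ε * (k + 1) ≤ 2 := by linarith
    have h6 : (k : ℝ) + 1 ≤ 2 / ε := by rw [le_div_iff₀ hε]; linarith
    have h7 : (k : ℝ) ≤ K := by linarith
    exact_mod_cast h7
  by_cases hc : (2 ^ i) ^ 4 ≤ 2 * X
  · -- case 1
    obtain ⟨k, hk1, hk2, hk3⟩ : ∃ k : ℕ, 1 ≤ k ∧ (2 ^ i) ^ (2 * k + 2) ≤ 2 * X ∧
        2 * X < (2 ^ i) ^ (2 * (k + 1) + 2) := by
      by_contra hcon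
      push Not at hcon
      have hall : ∀ k : ℕ, (2 ^ i) ^ (2 * (k + 1) + 2) ≤ 2 * X := by
        intro k
        induction k with
        | zero => simpa using hc
        | succ n ih => exact hcon (n + 1) (by omega) ih
      have := hkK (K + 1) (hall K)
      omega
    have hkle := hkK k hk2
    have hT := h1 k hk2
    have hk3' : 2 * (X : ℝ) < P ^ (2 * (k + 1) + 2) := by
      have : ((2 * X : ℕ) : ℝ) < (((2 ^ i) ^ (2 * (k + 1) + 2) : ℕ) : ℝ) := by exact_mod_cast hk3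
      push_cast at this
      exact this
    set r : ℝ := 1 / (2 * (k : ℝ) + 4) with hr
    have hn0 : (0 : ℝ) < 2 * (k : ℝ) + 4 := by positivity
    -- P ≥ X^r
    have hPr : (X : ℝ) ^ r ≤ P := by
      have h5 : ((X : ℝ) ^ r) ^ (2 * (k + 1) + 2) ≤ P ^ (2 * (k + 1) + 2) := by
        have : ((X : ℝ) ^ r) ^ (2 * (k + 1) + 2) = X := by
          rw [← Real.rpow_natCast, ← Real.rpow_mul hX0.le]
          have : r * ((2 * (k + 1) + 2 : ℕ) : ℝ) = 1 := by
            rw [hr]; push_cast; field_simp; ring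
          rw [this, Real.rpow_one]
        rw [this]; linarith
      exact (pow_le_pow_iff_left₀ (Real.rpow_nonneg hX0.le _) hP0.le (by omega)).mp h5
    have hXr : (0 : ℝ) < (X : ℝ) ^ r := Real.rpow_pos_of_pos hX0 _
    -- H^(k-1) ≥ (X^ε/4)^(k-1)
    obtain ⟨m, rfl⟩ : ∃ m, k = m + 1 := ⟨k - 1, by omega⟩
    have hHm : (X : ℝ) ^ ((m : ℝ) * ε) / 4 ^ m ≤ H ^ m := by
      have h6 : ((X : ℝ) ^ ε / 4) ^ m ≤ H ^ m := pow_le_pow_left₀ (by positivity) hHe m
      have h7 : ((X : ℝ) ^ ε / 4) ^ m = (X : ℝ) ^ ((m : ℝ) * ε) / 4 ^ m := by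
        rw [div_pow, ← Real.rpow_natCast ((X : ℝ) ^ ε) m, ← Real.rpow_mul hX0.le, mul_comm ε]
      rw [← h7]; exact h6
    have hXm : (0 : ℝ) < (X : ℝ) ^ ((m : ℝ) * ε) := Real.rpow_pos_of_pos hX0 _
    have hL0 : 0 < L := by linarith
    have hT2 : T ≤ 10 * Ck (m + 1) * (X * L ^ (m + 1) / (P * H ^ m)) := by
      calc T ≤ ((2 : ℝ) ^ (j + 2) + 1) * (2 * (Ck (m + 1) * (X / P * (L / H) ^ (m + 1)))) := hT
        _ ≤ (5 * H) * (2 * (Ck (m + 1) * (X / P * (L / H) ^ (m + 1)))) := by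
            have hck := hCk (m + 1)
            apply mul_le_mul_of_nonneg_right
            · rw [h4H]; linarith
            · positivity
        _ = 10 * Ck (m + 1) * (X * L ^ (m + 1) / (P * H ^ m)) := by
            rw [div_pow, pow_succ H m]; field_simp; ring
    have hden : (X : ℝ) ^ r * ((X : ℝ) ^ ((m : ℝ) * ε) / 4 ^ m) ≤ P * H ^ m :=
      mul_le_mul hPr hHm (by positivity) hP0.le
    have hT3 : T ≤ (10 * D * 4 ^ K * L ^ K) * ((X : ℝ) / ((X : ℝ) ^ r * (X : ℝ) ^ ((m : ℝ) * ε))) := by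
      calc T ≤ 10 * Ck (m + 1) * (X * L ^ (m + 1) / (P * H ^ m)) := hT2
        _ ≤ 10 * D * (X * L ^ (m + 1) / ((X : ℝ) ^ r * ((X : ℝ) ^ ((m : ℝ) * ε) / 4 ^ m))) := by
            apply mul_le_mul
            · linarith [hDk (m + 1) hkle]
            · exact div_le_div_of_nonneg_left (by positivity) (by positivity) hden
            · positivity
            · positivity
        _ = (10 * D * 4 ^ m * L ^ (m + 1)) *
              ((X : ℝ) / ((X : ℝ) ^ r * (X : ℝ) ^ ((m : ℝ) * ε))) := by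
            field_simp
        _ ≤ (10 * D * 4 ^ K * L ^ K) * ((X : ℝ) / ((X : ℝ) ^ r * (X : ℝ) ^ ((m : ℝ) * ε))) := by
            apply mul_le_mul_of_nonneg_right _ (by positivity)
            apply mul_le_mul
            · apply mul_le_mul_of_nonneg_left _ (by positivity)
              exact pow_le_pow_right₀ (by norm_num) (by omega)
            · exact pow_le_pow_right₀ hL1 hkle
            · positivity
            · positivity
    have hT4 : T ≤ (X : ℝ) ^ (ε / 2) * (X : ℝ) ^ (1 - r - (m : ℝ) * ε) := by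
      refine hT3.trans ?_
      have h8 : (X : ℝ) / ((X : ℝ) ^ r * (X : ℝ) ^ ((m : ℝ) * ε)) =
          (X : ℝ) ^ (1 - r - (m : ℝ) * ε) := by
        rw [Real.rpow_sub hX0, Real.rpow_sub hX0, Real.rpow_one, div_div]
      rw [h8]
      exact mul_le_mul_of_nonneg_right a2 (Real.rpow_nonneg hX0.le _)
    refine hT4.trans ?_
    rw [← Real.rpow_add hX0]
    apply Real.rpow_le_rpow_of_exponent_le hX1
    have h9 := expo ε hε (m + 1)
    have h10 : (((m + 1 : ℕ) : ℝ) - 1) * ε = (m : ℝ) * ε := by push_cast; ring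
    rw [h10] at h9
    have h11 : (1 : ℝ) / (2 * ((m + 1 : ℕ) : ℝ) + 4) = r := rfl
    rw [h11] at h9
    linarith
  · -- case 2
    push Not at hc
    have hc' : 2 * (X : ℝ) < P ^ 4 := by
      have : ((2 * X : ℕ) : ℝ) < (((2 ^ i) ^ 4 : ℕ) : ℝ) := by exact_mod_cast hc
      push_cast at this
      exact this
    have h0 : (2 ^ i) ^ (2 * 0 + 2) ≤ 2 * X := by
      have : (2 ^ i) ^ (2 * 0 + 2) = 4 ^ i := by
        rw [← pow_mul, show (4 : ℕ) = 2 ^ 2 by norm_num, ← pow_mul]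
        congr 1
        ring
      rw [this]; exact hi.le
    have hTa := h1 0 h0
    have hC0 := hCk 0
    have hL0 : 0 < L := by linarith
    have hTa2 : T ≤ 10 * Ck 0 * (H * X / P) := by
      calc T ≤ ((2 : ℝ) ^ (j + 2) + 1) * (2 * (Ck 0 * (X / P * (L / H) ^ 0))) := hTa
        _ ≤ (5 * H) * (2 * (Ck 0 * (X / P * (L / H) ^ 0))) := by
            apply mul_le_mul_of_nonneg_right
            · rw [h4H]; linarith
            · positivity
        _ = 10 * Ck 0 * (H * X / P) := by rw [pow_zero]; ring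
    have hTb : T ≤ C * (X * L / (2 * H)) := by rw [← h2H]; exact h2
    have hPq : (X : ℝ) ^ (1 / 4 : ℝ) ≤ P := by
      have h5 : ((X : ℝ) ^ (1 / 4 : ℝ)) ^ 4 ≤ P ^ 4 := by
        have : ((X : ℝ) ^ (1 / 4 : ℝ)) ^ 4 = X := by
          rw [← Real.rpow_natCast, ← Real.rpow_mul hX0.le]
          norm_num
        rw [this]; linarith
      exact (pow_le_pow_iff_left₀ (Real.rpow_nonneg hX0.le _) hP0.le (by norm_num)).mp h5
    have hTT : T * T ≤ (5 * Ck 0 * C * L) * ((X : ℝ) ^ (2 : ℝ) / (X : ℝ) ^ (1 / 4 : ℝ)) := by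
      calc T * T ≤ (10 * Ck 0 * (H * X / P)) * (C * (X * L / (2 * H))) :=
            mul_le_mul hTa2 hTb hT (by positivity)
        _ = (5 * Ck 0 * C * L) * ((X : ℝ) ^ (2 : ℝ) / P) := by
            rw [Real.rpow_two]; field_simp; ring
        _ ≤ (5 * Ck 0 * C * L) * ((X : ℝ) ^ (2 : ℝ) / (X : ℝ) ^ (1 / 4 : ℝ)) := by
            apply mul_le_mul_of_nonneg_left _ (by positivity)
            exact div_le_div_of_nonneg_left (by positivity) (Real.rpow_pos_of_pos hX0 _) hPq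
    have hTT2 : T ^ 2 ≤ ((X : ℝ) ^ (1 - √(2 * ε) + 7 / 2 * ε)) ^ 2 := by
      calc T ^ 2 = T * T := sq T
        _ ≤ (5 * Ck 0 * C * L) * ((X : ℝ) ^ (2 : ℝ) / (X : ℝ) ^ (1 / 4 : ℝ)) := hTT
        _ ≤ (X : ℝ) ^ ε * ((X : ℝ) ^ (2 : ℝ) / (X : ℝ) ^ (1 / 4 : ℝ)) :=
            mul_le_mul_of_nonneg_right a3 (by positivity)
        _ = (X : ℝ) ^ (7 / 4 + ε) := by
            rw [← Real.rpow_sub hX0, ← Real.rpow_add hX0]; congr 1; ring
        _ ≤ (X : ℝ) ^ (2 * (1 - √(2 * ε) + 7 / 2 * ε)) :=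
            Real.rpow_le_rpow_of_exponent_le hX1 (expo2 ε hε hε1)
        _ = ((X : ℝ) ^ (1 - √(2 * ε) + 7 / 2 * ε)) ^ 2 := by
            rw [← Real.rpow_natCast, ← Real.rpow_mul hX0.le]; congr 1; push_cast; ring
    exact (pow_le_pow_iff_left₀ hT (Real.rpow_nonneg hX0.le _) (by norm_num)).mp hTT2

end Pool.Agent.Helper12.BI
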